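import Pool.Agent.Helper24.AQ.Fam

set_option autoImplicit false

namespace Pool.Agent.Helper24.AR

open Finset Pool.Agent.Helper24.AQ

theorem pow_le_choose_exp (N n : ℕ) (hn : 1 ≤ n) (h : 2 * n ≤ N) :
    (N : ℝ) ^ n ≤ Real.exp (2 * ((n : ℝ) / N) * n) * (n.factorial * (N.choose n : ℕ)) := by
  have hN : (0 : ℝ) < N := by
    have : 0 < N := by omega
    exact_mod_cast this
  have h1 := Nat.pow_sub_le_descFactorial N n
  rw [Nat.descFactorial_eq_factorial_mul_choose] at h1
  have h2 : (((N + 1 - n) ^ n : ℕ) : ℝ) ≤ ((n.factorial * N.choose n : ℕ) : ℝ) := by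
    exact_mod_cast h1
  push_cast at h2
  set d : ℝ := (n : ℝ) / N with hd
  have hd0 : 0 ≤ d := by positivity
  have hd1 : d ≤ 1 / 2 := by
    rw [hd, div_le_iff₀ hN]
    have : (2 * n : ℝ) ≤ N := by exact_mod_cast h
    linarith
  have h3 : (N : ℝ) * Real.exp (-(2 * d)) ≤ ((N + 1 - n : ℕ) : ℝ) := by
    have h4 : Real.exp (-(2 * d)) ≤ 1 - d := by
      have h5 : 1 + 2 * d ≤ Real.exp (2 * d) := by
        have := Real.add_one_le_exp (2 * d)
        linarith
      have h6 : 1 ≤ (1 - d) * Real.exp (2 * d) := by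
        have h7 : 1 ≤ (1 - d) * (1 + 2 * d) := by nlinarith
        have h8 : (1 - d) * (1 + 2 * d) ≤ (1 - d) * Real.exp (2 * d) :=
          mul_le_mul_of_nonneg_left h5 (by linarith)
        linarith
      rw [Real.exp_neg, inv_eq_one_div, div_le_iff₀ (Real.exp_pos _)]
      exact h6
    have h5 : (N : ℝ) * (1 - d) = N - n := by
      rw [hd]; field_simp
    calc (N : ℝ) * Real.exp (-(2 * d)) ≤ N * (1 - d) := mul_le_mul_of_nonneg_left h4 hN.le
      _ = N - n := h5
      _ ≤ ((N + 1 - n : ℕ) : ℝ) := by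
          rw [Nat.cast_sub (by omega)]
          push_cast
          linarith
  have h4 : (N : ℝ) ^ n = Real.exp (2 * d * n) * (N * Real.exp (-(2 * d))) ^ n := by
    rw [mul_pow, ← Real.exp_nat_mul]
    have h5 : Real.exp (2 * d * n) * Real.exp (↑n * -(2 * d)) = 1 := by
      rw [← Real.exp_add, ← Real.exp_zero]
      congr 1
      ring
    calc (N : ℝ) ^ n = (Real.exp (2 * d * n) * Real.exp (↑n * -(2 * d))) * N ^ n := by
          rw [h5, one_mul]
      _ = _ := by ring
  rw [h4]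
  apply mul_le_mul_of_nonneg_left _ (Real.exp_pos _).le
  exact le_trans (pow_le_pow_left₀ (by positivity) h3 _) h2

/-- The bound for the exceptional sets and the neighbourhoods, with explicit exponents. -/
theorem core (k : ℕ) (hk : 1 ≤ k) (ε : ℝ) (hε : 0 < ε) :
    ∃ s δ0 : ℝ, 0 < s ∧ s ≤ 1 ∧ 0 < δ0 ∧ δ0 ≤ 1 / 3 ∧
      ∀ (y : ℕ) (Q : Finset ℕ), (∀ q ∈ Q, q.Prime ∧ q ≤ y) →
      ∀ n : ℕ, 1 ≤ n → ∀ d : ℝ, d = (n : ℝ) / Q.card → 0 < d → d ≤ δ0 →
      (y : ℝ) ^ (d ^ s) ≤ Q.card →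
      ∀ L : ℕ, (L : ℝ) ≤ n * d ^ (-s) →
      ∃ (T : ℕ) (S : Finset (Fin n → ℕ)),
        (S.card : ℝ) * Real.exp (2 * d * n) ≤ d ^ (s + d * n) * (Q.card : ℝ) ^ n ∧
        (∀ p : Fin n → ℕ, (∀ i, p i ∈ Q) → p ∉ S →
          ∀ R ∈ relFam n k (2 * k * L) T, ¬ Rel p R) ∧
        ((((exps n L).filter
          (fun f => (univ.filter (fun i => (0 : ℕ) ≠ f i)).card ≤ T)).card : ℝ) ^ 2) ^ k ≤
            Real.exp (n * d ^ s) ^ ε := by
  classical
  have hk0 : (0 : ℝ) < k := by exact_mod_cast hk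
  have hk1 : (1 : ℝ) ≤ k := by exact_mod_cast hk
  set lk : ℝ := Real.log (2 * k * k) with hlk
  have hlk0 : 0 ≤ lk := by
    apply Real.log_nonneg
    nlinarith
  set b : ℝ := 1 / (4 : ℝ) ^ (k + 1) with hb
  have hb0 : 0 < b := by positivity
  have h4k : (4 : ℝ) ≤ 4 ^ k := le_self_pow₀ (by norm_num) (by omega)
  have hb1 : b ≤ 1 / 16 := by
    rw [hb, div_le_div_iff₀ (by positivity) (by norm_num), pow_succ]
    linarith
  set C1 : ℝ := 2 + 2 * (lk + 2 * k) with hC1
  have hC1p : 0 ≤ C1 := by positivity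
  set C2 : ℝ := (2 * k + 1) ^ (2 * k + 1) with hC2
  have hC2p : 1 ≤ C2 := one_le_pow₀ (by linarith)
  set C3 : ℝ := (12 * (k : ℝ)) ^ (2 * k) with hC3
  have hC3p : 0 ≤ C3 := by positivity
  set K : ℝ := C3 + C1 + C2 * Real.exp 3 + 16 / b + 24 * k / ε + 3 with hK
  have hK1 : 0 ≤ C2 * Real.exp 3 := by positivity
  have hK2 : 0 ≤ 16 / b := by positivity
  have hK3 : 0 ≤ 24 * k / ε := by positivity
  have hKpos : 3 ≤ K := by linarith
  have hK0 : 0 < K := by linarith
  set s : ℝ := b / (64 * k) with hs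
  have hs0 : 0 < s := by positivity
  have hsb : s ≤ b / 64 := by
    rw [hs]
    apply div_le_div_of_nonneg_left hb0.le (by norm_num)
    linarith
  have hks : s * k = b / 64 := by
    rw [hs]
    field_simp
  set δ0 : ℝ := K ^ (-(1 / s)) with hδ0
  have hδ0p : 0 < δ0 := Real.rpow_pos_of_pos hK0 _
  have hδ03 : δ0 ≤ 1 / 3 := by
    rw [hδ0, Real.rpow_neg hK0.le, ← one_div]
    apply div_le_div_of_nonneg_left (by norm_num) (by norm_num)
    have h1 : (1 : ℝ) ≤ 1 / s := by
      rw [le_div_iff₀ hs0]; linarith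
    calc (3 : ℝ) ≤ K := hKpos
      _ = K ^ (1 : ℝ) := (Real.rpow_one K).symm
      _ ≤ K ^ (1 / s) := Real.rpow_le_rpow_of_exponent_le (by linarith) h1
  refine ⟨s, δ0, hs0, by linarith, hδ0p, hδ03, ?_⟩
  intro y Q hQ n hn d hd hd0 hdδ hQc L hL
  have hd1 : d ≤ 1 := by linarith
  have hn0 : (0 : ℝ) < n := by exact_mod_cast hn
  have hn1 : (1 : ℝ) ≤ n := by exact_mod_cast hn
  have hQp : ∀ q ∈ Q, q.Prime := fun q hq => (hQ q hq).1
  have hQy : ∀ q ∈ Q, q ≤ y := fun q hq => (hQ q hq).2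
  -- powers of d
  have hKd : ∀ r : ℝ, s ≤ r → K ≤ d ^ (-r) := by
    intro r hr
    have h1 : K ≤ d ^ (-s) := by
      have h2 : δ0 ^ (-s) = K := by
        rw [hδ0, ← Real.rpow_mul hK0.le]
        have : -(1 / s) * -s = 1 := by field_simp
        rw [this, Real.rpow_one]
      rw [← h2]
      exact Real.rpow_le_rpow_of_nonpos hd0 hdδ (by linarith)
    refine le_trans h1 ?_
    exact Real.rpow_le_rpow_of_exponent_ge hd0 hd1 (by linarith)
  have hKle : ∀ x : ℝ, 0 ≤ x → ∀ r : ℝ, s ≤ r → x ≤ K → x * d ^ r ≤ 1 := by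
    intro x hx r hr hxK
    have h1 := le_trans hxK (hKd r hr)
    calc x * d ^ r ≤ d ^ (-r) * d ^ r := mul_le_mul_of_nonneg_right h1 (by positivity)
      _ = 1 := by rw [← Real.rpow_add hd0]; simp
  have hQpos : (0 : ℝ) < Q.card := by
    by_contra h
    have h1 : (Q.card : ℝ) = 0 := le_antisymm (not_lt.1 h) (Nat.cast_nonneg _)
    rw [h1, div_zero] at hd
    linarith
  have hnd : (n : ℝ) = d * Q.card := by rw [hd]; field_simp
  have hdQ : 1 ≤ d * Q.card := by rw [← hnd]; exact hn1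
  have hrp : ∀ r : ℝ, 0 < d ^ r := fun r => Real.rpow_pos_of_pos hd0 r
  have hmono : ∀ r r' : ℝ, r' ≤ r → d ^ r ≤ d ^ r' := fun r r' h =>
    Real.rpow_le_rpow_of_exponent_ge hd0 hd1 h
  have hle1 : ∀ r : ℝ, 0 ≤ r → d ^ r ≤ 1 := fun r h => Real.rpow_le_one hd0.le hd1 h
  have hge1 : ∀ r : ℝ, 0 ≤ r → 1 ≤ d ^ (-r) := by
    intro r hr
    have := hmono 0 (-r) (by linarith)
    rwa [Real.rpow_zero] at this
  have hadd : ∀ r r' : ℝ, d ^ r * d ^ r' = d ^ (r + r') := fun r r' => (Real.rpow_add hd0 r r').symm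
  set T : ℕ := ⌊d ^ (4 * s) * n⌋₊ with hT
  have hT1 : (T : ℝ) ≤ d ^ (4 * s) * n := Nat.floor_le (by positivity)
  have hT2 : d ^ (4 * s) * n ≤ (T : ℝ) + 1 := (Nat.lt_floor_add_one _).le
  have hT0 : (0 : ℝ) ≤ T := by positivity
  set ρ : ℝ := d ^ (1 / 4 : ℝ) with hρ
  have hρ0 : 0 < ρ := hrp _
  have hρ1 : ρ ≤ 1 := hle1 _ (by norm_num)
  set l : ℝ := d ^ (-(b / 4)) with hl
  have hl1 : 1 ≤ l := hge1 _ (by linarith)
  set M : ℝ := 12 * k * d ^ (-(5 * s)) with hM
  have hM0 : 0 ≤ M := by positivity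
  have hMle : Real.exp 1 * (1 + (((2 * k * L : ℕ) : ℝ) + 1) / (T + 1)) ≤ M := by
    have h1 : (((2 * k * L : ℕ) : ℝ) + 1) / (T + 1) ≤ 2 * k * d ^ (-(5 * s)) + 1 := by
      rw [div_le_iff₀ (by positivity)]
      have h2 : ((2 * k * L : ℕ) : ℝ) ≤ 2 * k * d ^ (-(5 * s)) * (T + 1) := by
        push_cast
        calc (2 : ℝ) * k * L ≤ 2 * k * (n * d ^ (-s)) :=
              mul_le_mul_of_nonneg_left hL (by positivity)
          _ = 2 * k * d ^ (-(5 * s)) * (d ^ (4 * s) * n) := by
              have h3 : d ^ (-s) = d ^ (-(5 * s)) * d ^ (4 * s) := by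
                rw [hadd]
                congr 1
                ring
              rw [h3]
              ring
          _ ≤ 2 * k * d ^ (-(5 * s)) * (T + 1) := mul_le_mul_of_nonneg_left hT2 (by positivity)
      have h3 : (2 * k * d ^ (-(5 * s)) + 1) * ((T : ℝ) + 1) =
          2 * k * d ^ (-(5 * s)) * (T + 1) + (T + 1) := by ring
      rw [h3]
      linarith
    have h2 : (1 : ℝ) ≤ k * d ^ (-(5 * s)) := by
      have h3 := hge1 (5 * s) (by positivity)
      exact one_le_mul_of_one_le_of_one_le hk1 h3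
    have h3 := Real.exp_one_lt_d9
    calc Real.exp 1 * (1 + (((2 * k * L : ℕ) : ℝ) + 1) / (T + 1))
        ≤ 3 * (4 * (k * d ^ (-(5 * s)))) := by
          apply mul_le_mul (by linarith) (by linarith) (by positivity) (by norm_num)
      _ = M := by rw [hM]; ring
  have hQ3 : (3 : ℝ) ≤ Q.card := by
    have h1 : d * Q.card ≤ 1 / 3 * Q.card := mul_le_mul_of_nonneg_right (by linarith) hQpos.le
    linarith
  have hQley : Q.card ≤ y := by
    have h1 : Q ⊆ Icc 1 y := by
      intro q hq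
      exact mem_Icc.2 ⟨(hQp q hq).one_le, hQy q hq⟩
    simpa using card_le_card h1
  have hy3 : 3 ≤ y := by
    have : 3 ≤ Q.card := by exact_mod_cast hQ3
    omega
  set W : ℕ := ⌊ρ * Q.card⌋₊ with hW
  have hWle : (W : ℝ) ≤ ρ * Q.card := Nat.floor_le (mul_nonneg hρ0.le hQpos.le)
  have hWb : ∀ Y : ℤ, Y ≠ 0 → |Y| ≤ (2 * k * k : ℕ) * (y : ℤ) ^ (2 * k * L) →
      (Q.filter (fun q : ℕ => (q : ℤ) ∣ Y)).card ≤ W := by
    intro Y hY hYle
    have h1 := W_bound k hk (d ^ s) (hrp s) y (2 * k * L) hy3 Q hQp hQc Y hY hYle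
    apply Nat.le_floor
    refine le_trans h1 ?_
    have ha : (Q.card : ℝ) ^ (1 / 2 : ℝ) ≤ d ^ (1 / 2 : ℝ) * Q.card := by
      have h2 : (Q.card : ℝ) ^ (1 / 2 : ℝ) ≤ (d * Q.card * Q.card) ^ (1 / 2 : ℝ) := by
        exact Real.rpow_le_rpow hQpos.le (le_mul_of_one_le_left hQpos.le hdQ) (by norm_num)
      have h3 : (d * Q.card * Q.card) ^ (1 / 2 : ℝ) = d ^ (1 / 2 : ℝ) * Q.card := by
        rw [mul_assoc, Real.mul_rpow hd0.le (mul_nonneg hQpos.le hQpos.le),
          ← Real.sqrt_eq_rpow (_ * _), Real.sqrt_mul_self hQpos.le]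
      linarith
    have hdd : d ≤ d ^ (1 / 2 : ℝ) := by
      have := hmono 1 (1 / 2) (by norm_num)
      rwa [Real.rpow_one] at this
    have hbb : 1 ≤ d ^ (1 / 2 : ℝ) * Q.card :=
      le_trans hdQ (mul_le_mul_of_nonneg_right hdd hQpos.le)
    have hds : (2 : ℝ) / d ^ s = 2 * d ^ (-s) := by
      rw [Real.rpow_neg hd0.le, div_eq_mul_inv]
    have hlk' : d ^ (-s) * lk ≤ lk * (d ^ (1 / 2 : ℝ) * Q.card) := by
      have h2 : d ^ (-s) ≤ d ^ (1 / 2 : ℝ) * Q.card := by
        calc d ^ (-s) ≤ d ^ (-s) * (d * Q.card) := le_mul_of_one_le_right (hrp _).le hdQ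
          _ = (d ^ (-s) * d ^ (1 : ℝ)) * Q.card := by rw [Real.rpow_one]; ring
          _ ≤ d ^ (1 / 2 : ℝ) * Q.card := by
              apply mul_le_mul_of_nonneg_right _ hQpos.le
              rw [hadd]
              apply hmono
              linarith
      rw [mul_comm]
      exact mul_le_mul_of_nonneg_left h2 hlk0
    have hmn : d ^ (-s) * ((2 * k * L : ℕ) : ℝ) ≤ 2 * k * (d ^ (1 / 2 : ℝ) * Q.card) := by
      push_cast
      have h2 : d ^ (-s) * (L : ℝ) ≤ d ^ (1 / 2 : ℝ) * Q.card := by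
        calc d ^ (-s) * (L : ℝ) ≤ d ^ (-s) * (n * d ^ (-s)) :=
              mul_le_mul_of_nonneg_left hL (hrp _).le
          _ = (d ^ (-s) * d ^ (-s) * d ^ (1 : ℝ)) * Q.card := by rw [Real.rpow_one, hnd]; ring
          _ ≤ d ^ (1 / 2 : ℝ) * Q.card := by
              apply mul_le_mul_of_nonneg_right _ hQpos.le
              rw [hadd, hadd]
              apply hmono
              linarith
      calc d ^ (-s) * (2 * (k : ℝ) * L) = 2 * k * (d ^ (-s) * (L : ℝ)) := by ring
        _ ≤ 2 * k * (d ^ (1 / 2 : ℝ) * Q.card) := mul_le_mul_of_nonneg_left h2 (by positivity)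
    have hcc : 2 / d ^ s * (lk + ((2 * k * L : ℕ) : ℝ)) ≤
        2 * (lk + 2 * k) * (d ^ (1 / 2 : ℝ) * Q.card) := by
      rw [hds]
      calc 2 * d ^ (-s) * (lk + ((2 * k * L : ℕ) : ℝ))
          = 2 * (d ^ (-s) * lk + d ^ (-s) * ((2 * k * L : ℕ) : ℝ)) := by ring
        _ ≤ 2 * (lk * (d ^ (1 / 2 : ℝ) * Q.card) + 2 * k * (d ^ (1 / 2 : ℝ) * Q.card)) := by
            linarith
        _ = _ := by ring
    have hsum : (Q.card : ℝ) ^ (1 / 2 : ℝ) + 1 + 2 / d ^ s * (lk + ((2 * k * L : ℕ) : ℝ)) ≤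
        C1 * (d ^ (1 / 2 : ℝ) * Q.card) := by
      rw [hC1]
      linarith
    refine le_trans hsum ?_
    have h5 := hKle C1 hC1p (1 / 4) (by linarith) (by linarith)
    have h6 : d ^ (1 / 2 : ℝ) = d ^ (1 / 4 : ℝ) * d ^ (1 / 4 : ℝ) := by
      rw [hadd]; norm_num
    calc C1 * (d ^ (1 / 2 : ℝ) * Q.card) = (C1 * d ^ (1 / 4 : ℝ)) * (ρ * Q.card) := by
          rw [h6, hρ]; ring
      _ ≤ 1 * (ρ * Q.card) := mul_le_mul_of_nonneg_right h5 (mul_nonneg hρ0.le hQpos.le)
      _ = ρ * Q.card := one_mul _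
  obtain ⟨S, hScard, hSgood⟩ := bad_tuples n k (2 * k * L) T y W Q (by omega) hQp hQy hWb M ρ l
    hMle hρ0 hρ1 hWle hl1
  refine ⟨T, S, ?_, hSgood, ?_⟩
  · -- the exceptional tuples
    have hx : M ^ (2 * k) * ρ ^ (1 / (4 : ℝ) ^ k) ≤ d ^ (b / 2) := by
      have h1 : M ^ (2 * k) = C3 * d ^ (-(5 * b / 32)) := by
        rw [hM, mul_pow, ← Real.rpow_natCast (d ^ (-(5 * s))), ← Real.rpow_mul hd0.le]
        congr 2
        push_cast
        have : -(5 * s) * (2 * k) = -(10 * (s * k)) := by ring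
        rw [this, hks]
        ring
      have h2 : ρ ^ (1 / (4 : ℝ) ^ k) = d ^ b := by
        rw [hρ, ← Real.rpow_mul hd0.le, hb]
        congr 1
        rw [pow_succ]
        field_simp
      rw [h1, h2]
      have h3 := hKle C3 hC3p (b / 4) (by linarith) (by linarith)
      calc (C3 * d ^ (-(5 * b / 32))) * d ^ b
          = (C3 * d ^ (b / 4)) * d ^ (b - b / 4 - 5 * b / 32) := by
            rw [mul_assoc, mul_assoc, hadd, hadd]
            congr 2
            ring
        _ ≤ 1 * d ^ (b - b / 4 - 5 * b / 32) := mul_le_mul_of_nonneg_right h3 (hrp _).le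
        _ ≤ d ^ (b / 2) := by
            rw [one_mul]
            exact hmono _ _ (by linarith)
    have hlx : (1 + l * (M ^ (2 * k) * ρ ^ (1 / (4 : ℝ) ^ k))) ^ n ≤ Real.exp 1 ^ (T + 1) := by
      have h1 : l * (M ^ (2 * k) * ρ ^ (1 / (4 : ℝ) ^ k)) ≤ d ^ (4 * s) := by
        calc l * (M ^ (2 * k) * ρ ^ (1 / (4 : ℝ) ^ k)) ≤ l * d ^ (b / 2) :=
              mul_le_mul_of_nonneg_left hx (by linarith)
          _ = d ^ (b / 4) := by
              rw [hl, hadd]
              congr 1
              ring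
          _ ≤ d ^ (4 * s) := hmono _ _ (by linarith)
      have h2 : 1 + l * (M ^ (2 * k) * ρ ^ (1 / (4 : ℝ) ^ k)) ≤ Real.exp (d ^ (4 * s)) := by
        have := Real.add_one_le_exp (d ^ (4 * s))
        linarith
      calc (1 + l * (M ^ (2 * k) * ρ ^ (1 / (4 : ℝ) ^ k))) ^ n
          ≤ Real.exp (d ^ (4 * s)) ^ n := pow_le_pow_left₀ (by positivity) h2 _
        _ = Real.exp (d ^ (4 * s) * n) := by rw [← Real.exp_nat_mul, mul_comm]
        _ ≤ Real.exp ((T + 1 : ℕ) * 1) := by
            apply Real.exp_le_exp.2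
            push_cast
            linarith
        _ = Real.exp 1 ^ (T + 1) := by rw [Real.exp_nat_mul]
    have h2dn : Real.exp (2 * d * n) ≤ Real.exp 2 ^ (T + 1) := by
      rw [← Real.exp_nat_mul]
      apply Real.exp_le_exp.2
      push_cast
      have h1 : d ≤ d ^ (4 * s) := by
        have := hmono 1 (4 * s) (by linarith)
        rwa [Real.rpow_one] at this
      have h2 : d * n ≤ d ^ (4 * s) * n := mul_le_mul_of_nonneg_right h1 hn0.le
      have h3 : 2 * d * n = 2 * (d * n) := by ring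
      rw [h3]
      linarith
    have hC2T : C2 ≤ C2 ^ (T + 1) := le_self_pow₀ hC2p (by omega)
    have hfin : (C2 * Real.exp 3 * d ^ (b / 4)) ^ (T + 1) ≤ d ^ (s + d * n) := by
      have h1 := hKle (C2 * Real.exp 3) (by positivity) (b / 8) (by linarith) (by linarith)
      have h2 : C2 * Real.exp 3 * d ^ (b / 4) ≤ d ^ (b / 8) := by
        calc C2 * Real.exp 3 * d ^ (b / 4) = (C2 * Real.exp 3 * d ^ (b / 8)) * d ^ (b / 8) := by
              rw [mul_assoc, mul_assoc, mul_assoc, hadd]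
              congr 3
              ring
          _ ≤ 1 * d ^ (b / 8) := mul_le_mul_of_nonneg_right h1 (hrp _).le
          _ = _ := one_mul _
      calc (C2 * Real.exp 3 * d ^ (b / 4)) ^ (T + 1) ≤ (d ^ (b / 8)) ^ (T + 1) :=
            pow_le_pow_left₀ (by positivity) h2 _
        _ = d ^ (b / 8 * ((T + 1 : ℕ) : ℝ)) := by
            rw [← Real.rpow_natCast (d ^ (b / 8)), ← Real.rpow_mul hd0.le]
        _ ≤ d ^ (s + d * n) := by
            apply hmono
            push_cast
            have h3 := hKle (16 / b) (by positivity) (1 - 4 * s) (by linarith) (by linarith)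
            have h4 : d ≤ b / 16 * d ^ (4 * s) := by
              have h5 : d = d ^ (1 - 4 * s) * d ^ (4 * s) := by
                rw [hadd]
                simp
              have h6 : d ^ (1 - 4 * s) ≤ b / 16 := by
                rw [div_mul_eq_mul_div, div_le_one hb0] at h3
                linarith
              calc d = d ^ (1 - 4 * s) * d ^ (4 * s) := h5
                _ ≤ b / 16 * d ^ (4 * s) := mul_le_mul_of_nonneg_right h6 (hrp _).le
            have h7 : d * n ≤ b / 16 * ((T : ℝ) + 1) := by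
              calc d * n ≤ (b / 16 * d ^ (4 * s)) * n := mul_le_mul_of_nonneg_right h4 hn0.le
                _ = b / 16 * (d ^ (4 * s) * n) := by ring
                _ ≤ b / 16 * ((T : ℝ) + 1) := mul_le_mul_of_nonneg_left hT2 (by positivity)
            have h8 : b / 16 ≤ b / 16 * ((T : ℝ) + 1) :=
              le_mul_of_one_le_right (by linarith) (by linarith)
            have h9 : b / 8 * ((T : ℝ) + 1) = b / 16 * ((T : ℝ) + 1) + b / 16 * ((T : ℝ) + 1) := by
              ring
            rw [h9]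
            linarith
    have hl' : (1 / l) = d ^ (b / 4) := by
      rw [hl, Real.rpow_neg hd0.le, one_div, inv_inv]
    rw [hl'] at hScard
    have hQn : (0 : ℝ) ≤ (Q.card : ℝ) ^ n := pow_nonneg hQpos.le n
    have he : Real.exp 1 ^ (T + 1) * Real.exp 2 ^ (T + 1) = Real.exp 3 ^ (T + 1) := by
      rw [← mul_pow, ← Real.exp_add]
      norm_num
    calc (S.card : ℝ) * Real.exp (2 * d * n)
        ≤ (((2 * k + 1) ^ (2 * k + 1) * (d ^ (b / 4)) ^ (T + 1) *
            (1 + l * (M ^ (2 * k) * ρ ^ (1 / (4 : ℝ) ^ k))) ^ n) * (Q.card : ℝ) ^ n) *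
            Real.exp (2 * d * n) := mul_le_mul_of_nonneg_right hScard (Real.exp_pos _).le
      _ ≤ ((C2 ^ (T + 1) * (d ^ (b / 4)) ^ (T + 1) * Real.exp 1 ^ (T + 1)) * (Q.card : ℝ) ^ n) *
            Real.exp 2 ^ (T + 1) := by
          apply mul_le_mul _ h2dn (Real.exp_pos _).le (mul_nonneg (by positivity) hQn)
          apply mul_le_mul_of_nonneg_right _ hQn
          apply mul_le_mul _ hlx (by positivity) (by positivity)
          apply mul_le_mul_of_nonneg_right hC2T (by positivity)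
      _ = (C2 ^ (T + 1) * (d ^ (b / 4)) ^ (T + 1) *
            (Real.exp 1 ^ (T + 1) * Real.exp 2 ^ (T + 1))) * (Q.card : ℝ) ^ n := by ring
      _ = (C2 * Real.exp 3 * d ^ (b / 4)) ^ (T + 1) * (Q.card : ℝ) ^ n := by
          rw [he, mul_pow, mul_pow]
          ring
      _ ≤ d ^ (s + d * n) * (Q.card : ℝ) ^ n := mul_le_mul_of_nonneg_right hfin hQn
  · -- neighbourhoods
    set v : ℝ := d ^ (5 * s) with hv
    have hv0 : 0 < v := hrp _
    have hv1 : v ≤ 1 := hle1 _ (by positivity)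
    set x : ℝ := Real.exp (-v) with hx
    have hx0 : 0 < x := Real.exp_pos _
    have hx1 : x < 1 := by
      rw [hx, Real.exp_lt_one_iff]
      linarith
    have h1x : v / 2 ≤ 1 - x := by
      have h4 : x ≤ 1 / (1 + v) := by
        rw [hx, Real.exp_neg, inv_eq_one_div]
        apply div_le_div_of_nonneg_left (by norm_num) (by positivity)
        have := Real.add_one_le_exp v
        linarith
      have h5 : v / 2 ≤ v / (1 + v) :=
        div_le_div_of_nonneg_left hv0.le (by positivity) (by linarith)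
      have h6 : v / (1 + v) = 1 - 1 / (1 + v) := by field_simp; ring
      linarith
    set u : ℝ := d ^ (9 * s) / 2 with hu
    have hu0 : 0 < u := by positivity
    have hu1 : u ≤ 1 := by
      have := hle1 (9 * s) (by positivity)
      rw [hu]
      linarith
    have h1 := nbhd_le (n := n) (L := L) (T := T) (fun _ => 0) u x hu0 hu1 hx0 hx1
    set N : ℝ := ((((exps n L).filter
      (fun f => (univ.filter (fun i => (0 : ℕ) ≠ f i)).card ≤ T)).card : ℕ) : ℝ) with hN
    have hN0 : 0 ≤ N := by rw [hN]; exact Nat.cast_nonneg _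
    have h2 : (1 + u / (1 - x)) ^ n ≤ Real.exp (d ^ (4 * s) * n) := by
      have h3 : u / (1 - x) ≤ d ^ (4 * s) := by
        rw [div_le_iff₀ (by linarith)]
        calc u = d ^ (4 * s + 5 * s) / 2 := by
              rw [hu]
              congr 2
              ring
          _ = (d ^ (4 * s) * d ^ (5 * s)) / 2 := by rw [hadd]
          _ = d ^ (4 * s) * (v / 2) := by rw [hv]; ring
          _ ≤ d ^ (4 * s) * (1 - x) := mul_le_mul_of_nonneg_left h1x (hrp _).le
      have h0 : 0 ≤ u / (1 - x) := div_nonneg hu0.le (by linarith)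
      rw [mul_comm (d ^ (4 * s)) (n : ℝ), Real.exp_nat_mul]
      apply pow_le_pow_left₀ (by linarith)
      have := Real.add_one_le_exp (d ^ (4 * s))
      linarith
    have h3 : d ^ (10 * s) ≤ u := by
      rw [hu, le_div_iff₀ (by norm_num)]
      calc d ^ (10 * s) * 2 ≤ d ^ (10 * s) * d ^ (-s) := by
            apply mul_le_mul_of_nonneg_left _ (hrp _).le
            have := hKd s le_rfl
            linarith
        _ = d ^ (9 * s) := by
            rw [hadd]
            congr 1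
            ring
    have hxL : Real.exp (-(d ^ (4 * s) * n)) ≤ x ^ L := by
      rw [hx, ← Real.exp_nat_mul]
      apply Real.exp_le_exp.2
      have h4 : (L : ℝ) * v ≤ d ^ (4 * s) * n := by
        calc (L : ℝ) * v ≤ (n * d ^ (-s)) * v := mul_le_mul_of_nonneg_right hL hv0.le
          _ = (d ^ (-s) * d ^ (5 * s)) * n := by rw [hv]; ring
          _ = d ^ (4 * s) * n := by
              rw [hadd]
              congr 2
              ring
      linarith
    have h5 : Real.exp (-(10 * d ^ (3 * s) * n)) ≤ u ^ T := by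
      refine le_trans ?_ (pow_le_pow_left₀ (hrp _).le h3 _)
      have h6 : (d ^ (10 * s)) ^ T = Real.exp (Real.log d * (10 * s) * T) := by
        rw [← Real.rpow_natCast, ← Real.rpow_mul hd0.le, Real.rpow_def_of_pos hd0]
        congr 1
        ring
      rw [h6]
      apply Real.exp_le_exp.2
      have h7 : -Real.log d ≤ d ^ (-s) / s := by
        have h8 := Real.log_le_rpow_div (x := d⁻¹) (by positivity) (ε := s) hs0
        rw [Real.log_inv, Real.inv_rpow hd0.le, ← Real.rpow_neg hd0.le] at h8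
        exact h8
      have h8 : -Real.log d * (10 * s) ≤ 10 * d ^ (-s) := by
        calc -Real.log d * (10 * s) ≤ (d ^ (-s) / s) * (10 * s) :=
              mul_le_mul_of_nonneg_right h7 (by positivity)
          _ = 10 * d ^ (-s) := by field_simp
      have h9 : -Real.log d * (10 * s) * T ≤ 10 * d ^ (3 * s) * n := by
        calc -Real.log d * (10 * s) * T ≤ (10 * d ^ (-s)) * T :=
              mul_le_mul_of_nonneg_right h8 hT0
          _ ≤ (10 * d ^ (-s)) * (d ^ (4 * s) * n) :=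
              mul_le_mul_of_nonneg_left hT1 (by positivity)
          _ = 10 * (d ^ (-s) * d ^ (4 * s)) * n := by ring
          _ = 10 * d ^ (3 * s) * n := by
              rw [hadd]
              congr 3
              ring
      linarith
    have h43 : d ^ (4 * s) * n ≤ d ^ (3 * s) * n :=
      mul_le_mul_of_nonneg_right (hmono _ _ (by linarith)) hn0.le
    have h6 : N ≤ Real.exp (12 * d ^ (3 * s) * n) := by
      have h7 : N * (Real.exp (-(10 * d ^ (3 * s) * n)) * Real.exp (-(d ^ (4 * s) * n))) ≤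
          Real.exp (d ^ (4 * s) * n) := by
        refine le_trans ?_ (le_trans h1 h2)
        apply mul_le_mul_of_nonneg_left _ hN0
        exact mul_le_mul h5 hxL (Real.exp_pos _).le (pow_nonneg hu0.le _)
      have h8 : N = (N * (Real.exp (-(10 * d ^ (3 * s) * n)) * Real.exp (-(d ^ (4 * s) * n)))) *
          (Real.exp (10 * d ^ (3 * s) * n) * Real.exp (d ^ (4 * s) * n)) := by
        have h9 : Real.exp (-(10 * d ^ (3 * s) * n)) * Real.exp (10 * d ^ (3 * s) * n) = 1 := by
          rw [← Real.exp_add, neg_add_cancel, Real.exp_zero]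
        have h10 : Real.exp (-(d ^ (4 * s) * n)) * Real.exp (d ^ (4 * s) * n) = 1 := by
          rw [← Real.exp_add, neg_add_cancel, Real.exp_zero]
        calc N = N * (Real.exp (-(10 * d ^ (3 * s) * n)) * Real.exp (10 * d ^ (3 * s) * n)) *
              (Real.exp (-(d ^ (4 * s) * n)) * Real.exp (d ^ (4 * s) * n)) := by
              rw [h9, h10]; ring
          _ = _ := by ring
      rw [h8]
      calc (N * (Real.exp (-(10 * d ^ (3 * s) * n)) * Real.exp (-(d ^ (4 * s) * n)))) *
          (Real.exp (10 * d ^ (3 * s) * n) * Real.exp (d ^ (4 * s) * n))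
          ≤ Real.exp (d ^ (4 * s) * n) *
          (Real.exp (10 * d ^ (3 * s) * n) * Real.exp (d ^ (4 * s) * n)) :=
            mul_le_mul_of_nonneg_right h7 (by positivity)
        _ = Real.exp (d ^ (4 * s) * n + (10 * d ^ (3 * s) * n + d ^ (4 * s) * n)) := by
            rw [Real.exp_add, Real.exp_add]
        _ ≤ Real.exp (12 * d ^ (3 * s) * n) := by
            apply Real.exp_le_exp.2
            linarith
    calc (N ^ 2) ^ k = N ^ (2 * k) := (pow_mul N 2 k).symm
      _ ≤ Real.exp (12 * d ^ (3 * s) * n) ^ (2 * k) := pow_le_pow_left₀ hN0 h6 _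
      _ = Real.exp ((2 * k : ℕ) * (12 * d ^ (3 * s) * n)) := (Real.exp_nat_mul _ _).symm
      _ ≤ Real.exp (n * d ^ s * ε) := by
          apply Real.exp_le_exp.2
          have h7 := hKle (24 * k / ε) (by positivity) (2 * s) (by linarith) (by linarith)
          have h8 : 24 * k * d ^ (2 * s) ≤ ε := by
            rw [div_mul_eq_mul_div, div_le_one hε] at h7
            exact h7
          have h9 : d ^ (3 * s) = d ^ (2 * s) * d ^ s := by
            rw [hadd]
            congr 1
            ring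
          push_cast
          calc (2 : ℝ) * k * (12 * d ^ (3 * s) * n) = (24 * k * d ^ (2 * s)) * (d ^ s * n) := by
                rw [h9]; ring
            _ ≤ ε * (d ^ s * n) := mul_le_mul_of_nonneg_right h8 (by positivity)
            _ = n * d ^ s * ε := by ring
      _ = Real.exp (n * d ^ s) ^ ε := by rw [Real.exp_mul]

end Pool.Agent.Helper24.AR
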